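import Mathlib

/-!
# An abelian 13-power free binary morphism with a 5-power free fixed point avoiding bb

The letters `a` and `b` are the Booleans `false` and `true`.  The morphism is

  `a ↦ abaaabaaabaaa`,   `b ↦ ababababaabab`.
-/

namespace Pool.Agent.Results.MP_8f8c07_co.UniformThirteen

open Filter

/-- The word `v` is an abelian `k`-power: it is nonempty and it is the concatenation of `k`
nonempty words which are permutations of one another. -/
def IsAbelianPower (k : ℕ) (v : List Bool) : Prop :=
  v ≠ [] ∧ ∃ l : List (List Bool), l.length = k ∧ l.flatten = v ∧ (∀ x ∈ l, x ≠ []) ∧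
    ∀ x ∈ l, ∀ y ∈ l, x.Perm y

/-- The word `w` is abelian `k`-power free: no factor of it is an abelian `k`-power. -/
def AbelianPowerFree (k : ℕ) (w : List Bool) : Prop :=
  ∀ v, v <:+: w → ¬ IsAbelianPower k v

/-- The map `h` is a morphism of the free monoid on two letters. -/
def IsMorphism (h : List Bool → List Bool) : Prop := ∀ u v, h (u ++ v) = h u ++ h v

/-- The map `h` sends abelian `k`-power free words to abelian `k`-power free words. -/
def AbelianPowerFreeMap (k : ℕ) (h : List Bool → List Bool) : Prop :=
  ∀ w, AbelianPowerFree k w → AbelianPowerFree k (h w)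

/-- The infinite word `x` is the fixed point of `h` starting with `a`: `h(a) = au` with `u`
nonempty, the lengths of the words `h^n(a)` tend to infinity, and each `h^n(a)` is a prefix
of `x`. -/
def IsFixedPointFromA (h : List Bool → List Bool) (x : ℕ → Bool) : Prop :=
  (∃ u, u ≠ [] ∧ h [false] = false :: u) ∧
    Tendsto (fun n => (h^[n] [false]).length) atTop atTop ∧
      ∀ n i, i < (h^[n] [false]).length → (h^[n] [false])[i]? = some (x i)

/-- The factor of length `n` of the infinite word `x` which starts at position `s`. -/
def factor (x : ℕ → Bool) (s n : ℕ) : List Bool := (List.range n).map fun i => x (s + i)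

/-- The infinite word `x` is `5`-power free. -/
def FivePowerFree (x : ℕ → Bool) : Prop :=
  ∀ (s : ℕ) (u : List Bool), u ≠ [] → factor x s (5 * u.length) ≠ u ++ u ++ u ++ u ++ u

/-- The infinite word `x` has no factor `bb`. -/
def AvoidsBB (x : ℕ → Bool) : Prop := ∀ s, factor x s 2 ≠ [true, true]

/-- the images of the two letters -/
def img : Bool → List Bool
  | false => [false, true, false, false, false, true, false, false, false, true, false, false,
      false]
  | true => [false, true, false, true, false, true, false, true, false, false, true, false,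
      true]

/-- the morphism -/
def h (w : List Bool) : List Bool := w.flatMap img

/-- the letters of the images -/
def T (c : Bool) (r : ℕ) : Bool := (img c).getD r false

/-- the number of `b`s among the first `n` letters -/
def cnt (w : List Bool) (n : ℕ) : ℕ := (w.take n).count true

/-- the number of `b`s among the first `r` letters of the image of `c` -/
def X (c : Bool) (r : ℕ) : ℕ := cnt (img c) r

lemma h_nil : h [] = [] := rfl

lemma h_cons (c : Bool) (w : List Bool) : h (c :: w) = img c ++ h w := by
  simp [h]

lemma img_length (c : Bool) : (img c).length = 13 := by cases c <;> rfl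

lemma h_length (w : List Bool) : (h w).length = 13 * w.length := by
  induction w with
  | nil => rfl
  | cons c w ih => rw [h_cons, List.length_append, ih, img_length, List.length_cons]; ring

lemma T_spec (c : Bool) {r : ℕ} (hr : r < 13) : (img c)[r]? = some (T c r) := by
  rw [T, List.getD_eq_getElem?_getD]
  have : r < (img c).length := by rw [img_length]; exact hr
  rw [List.getElem?_eq_getElem this]
  rfl

lemma h_get (w : List Bool) : ∀ {j r : ℕ}, r < 13 → ∀ {c : Bool}, w[j]? = some c →
    (h w)[13 * j + r]? = some (T c r) := by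
  induction w with
  | nil => intro j r _ c hc; simp at hc
  | cons d w ih =>
    intro j r hr c hc
    rw [h_cons]
    cases j with
    | zero =>
      simp only [List.getElem?_cons_zero, Option.some.injEq] at hc
      subst hc
      have : 13 * 0 + r < (img d).length := by rw [img_length]; omega
      rw [List.getElem?_append_left this]
      simpa using T_spec d hr
    | succ j =>
      simp only [List.getElem?_cons_succ] at hc
      have : (img d).length ≤ 13 * (j + 1) + r := by rw [img_length]; omega
      rw [List.getElem?_append_right this, img_length]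
      have e : 13 * (j + 1) + r - 13 = 13 * j + r := by omega
      rw [e]
      exact ih hr hc

lemma count_img (c : Bool) : (img c).count true = 3 + 3 * [c].count true := by
  cases c <;> decide

lemma cnt_h (w : List Bool) : ∀ {j r : ℕ}, r < 13 → j < w.length ∨ j = w.length ∧ r = 0 →
    cnt (h w) (13 * j + r) = 3 * j + 3 * cnt w j + X (w.getD j false) r := by
  induction w with
  | nil =>
    intro j r hr hj
    simp only [List.length_nil, Nat.not_lt_zero, false_or] at hj
    obtain ⟨rfl, rfl⟩ := hj
    decide
  | cons d w ih =>
    intro j r hr hj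
    cases j with
    | zero =>
      have hc : (d :: w).getD 0 false = d := rfl
      rw [hc, X, cnt, cnt, cnt, h_cons]
      have : 13 * 0 + r ≤ (img d).length := by rw [img_length]; omega
      rw [List.take_append_of_le_length this]
      simp
    | succ j =>
      have hj' : j < w.length ∨ j = w.length ∧ r = 0 := by
        simp only [List.length_cons] at hj
        omega
      have e : 13 * (j + 1) + r = (img d).length + (13 * j + r) := by
        rw [img_length]; ring
      have := ih hr hj'
      rw [cnt] at this
      have hc : (d :: w).getD (j + 1) false = w.getD j false := rfl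
      rw [cnt, e, h_cons, List.take_length_add_append, List.count_append, this, count_img, hc,
        cnt, cnt, List.take_succ_cons]
      have : (d :: w.take j).count true = [d].count true + (w.take j).count true := by
        rw [← List.count_append]; rfl
      rw [this]
      ring

/-! ### The finite checks -/

lemma chk1 : ∀ s : Fin 13, ∀ m : Fin 13, ∀ c : Fin 3, ∀ e : Fin 3, (m.1 ≠ 0 ∨ e.1 ≠ 0) →
    ∃ i : Fin 14, ∀ b : Bool, (c.1 + i.1 * e.1) % 3 ≠ X b ((s.1 + i.1 * m.1) % 13) % 3 := by
  decide +kernel

lemma chk2 : ∀ r : Fin 13, ∀ b b' : Bool, X b r.1 % 3 = X b' r.1 % 3 → X b r.1 = X b' r.1 := by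
  decide +kernel

/-! ### The morphism is abelian 13-power free -/

/-- The main step: an abelian `13`-power in `h w` gives one in `w`, in terms of positions. -/
lemma main_step (w : List Bool) (s m e : ℕ) (hm : 0 < m) (hs : s + 13 * m ≤ 13 * w.length)
    (he : ∀ i ≤ 13, cnt (h w) (s + i * m) = cnt (h w) s + i * e) :
    ∃ s' m' e', 0 < m' ∧ s' + 13 * m' ≤ w.length ∧
      ∀ i ≤ 13, cnt w (s' + i * m') = cnt w s' + i * e' := by
  -- the residues
  have key : ∀ i ≤ 13, cnt (h w) s + i * e = 3 * ((s + i * m) / 13) +
      3 * cnt w ((s + i * m) / 13) + X (w.getD ((s + i * m) / 13) false) ((s + i * m) % 13) := by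
    intro i hi
    rw [← he i hi]
    have h1 : s + i * m = 13 * ((s + i * m) / 13) + (s + i * m) % 13 :=
      (Nat.div_add_mod _ _).symm
    have h2 : i * m ≤ 13 * m := Nat.mul_le_mul_right _ hi
    have h3 := cnt_h w (j := (s + i * m) / 13) (r := (s + i * m) % 13)
      (Nat.mod_lt _ (by norm_num)) (by omega)
    rw [← h1] at h3
    exact h3
  set c0 := cnt (h w) s with hc0
  have hz : m % 13 = 0 ∧ e % 3 = 0 := by
    by_contra hne
    have hne' : m % 13 ≠ 0 ∨ e % 3 ≠ 0 := by tauto
    obtain ⟨i, hi⟩ := chk1 ⟨s % 13, Nat.mod_lt _ (by norm_num)⟩ ⟨m % 13, Nat.mod_lt _ (by norm_num)⟩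
      ⟨c0 % 3, Nat.mod_lt _ (by norm_num)⟩ ⟨e % 3, Nat.mod_lt _ (by norm_num)⟩ hne'
    have h1 := key i.1 (by omega)
    apply hi (w.getD ((s + i.1 * m) / 13) false)
    simp only
    have h2 : (s % 13 + i.1 * (m % 13)) % 13 = (s + i.1 * m) % 13 := by
      simp [Nat.add_mod, Nat.mul_mod]
    have h3 : (c0 % 3 + i.1 * (e % 3)) % 3 = (c0 + i.1 * e) % 3 := by
      simp [Nat.add_mod, Nat.mul_mod]
    rw [h2, h3, h1]
    omega
  obtain ⟨m', rfl⟩ : ∃ m', m = 13 * m' := ⟨m / 13, by omega⟩
  obtain ⟨e1, rfl⟩ : ∃ e1, e = 3 * e1 := ⟨e / 3, by omega⟩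
  have hdiv : ∀ i, (s + i * (13 * m')) / 13 = s / 13 + i * m' := by
    intro i
    rw [show s + i * (13 * m') = s + 13 * (i * m') by ring]
    omega
  have hmod : ∀ i, (s + i * (13 * m')) % 13 = s % 13 := by
    intro i
    rw [show s + i * (13 * m') = s + 13 * (i * m') by ring]
    omega
  simp only [hdiv, hmod] at key
  have k0 := key 0 (by omega)
  simp only [Nat.zero_mul, Nat.add_zero] at k0
  have hX : ∀ i ≤ 13, X (w.getD (s / 13 + i * m') false) (s % 13) =
      X (w.getD (s / 13) false) (s % 13) := by
    intro i hi
    apply chk2 ⟨s % 13, Nat.mod_lt _ (by norm_num)⟩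
    simp only
    have h1 := key i hi
    have h2 : i * (3 * e1) = 3 * (i * e1) := by ring
    omega
  refine ⟨s / 13, m', e1 - m', by omega, by omega, ?_⟩
  have k1 := key 1 (by omega)
  rw [hX 1 (by omega)] at k1
  have hmono : cnt w (s / 13) ≤ cnt w (s / 13 + 1 * m') := by
    unfold cnt
    apply List.Sublist.count_le
    apply List.take_sublist_take_left
    omega
  have hle : m' ≤ e1 := by omega
  intro i hi
  have h1 := key i hi
  rw [hX i hi] at h1
  have h2 : i * (3 * e1) = 3 * (i * e1) := by ring
  have h3 : i * (e1 - m') + i * m' = i * e1 := by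
    rw [← Nat.mul_add, Nat.sub_add_cancel hle]
  omega

lemma take_flatten (m : ℕ) : ∀ (l : List (List Bool)), (∀ x ∈ l, x.length = m) → ∀ i ≤ l.length,
    l.flatten.take (i * m) = (l.take i).flatten := by
  intro l
  induction l with
  | nil => intro _ i hi; simp
  | cons x l ih =>
    intro hl i hi
    cases i with
    | zero => simp
    | succ i =>
      have hx : x.length = m := hl x (by simp)
      rw [List.flatten_cons, List.take_succ_cons, List.flatten_cons,
        show (i + 1) * m = x.length + i * m by rw [hx]; ring, List.take_length_add_append,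
        ih (fun y hy => hl y (by simp [hy])) i (by simpa using hi)]

lemma count_flatten (e : ℕ) (l : List (List Bool)) (hl : ∀ x ∈ l, x.count true = e) :
    l.flatten.count true = l.length * e := by
  induction l with
  | nil => simp
  | cons x l ih =>
    rw [List.flatten_cons, List.count_append, hl x (by simp), ih (fun y hy => hl y (by simp [hy])),
      List.length_cons]
    ring

lemma length_flatten' (m : ℕ) (l : List (List Bool)) (hl : ∀ x ∈ l, x.length = m) :
    l.flatten.length = l.length * m := by
  induction l with
  | nil => simp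
  | cons x l ih =>
    rw [List.flatten_cons, List.length_append, hl x (by simp), ih (fun y hy => hl y (by simp [hy])),
      List.length_cons]
    ring

/-- from an abelian power to positions -/
lemma pos_of_power {k : ℕ} (hk : 0 < k) {u v : List Bool} (hv : v <:+: u)
    (hp : IsAbelianPower k v) :
    ∃ s m e, 0 < m ∧ s + k * m ≤ u.length ∧ ∀ i ≤ k, cnt u (s + i * m) = cnt u s + i * e := by
  obtain ⟨-, l, hl, rfl, hne, hperm⟩ := hp
  obtain ⟨A, B, hAB⟩ := hv
  obtain ⟨y, l', rfl⟩ : ∃ y l', l = y :: l' := by
    cases l with
    | nil => simp at hl; omega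
    | cons y l' => exact ⟨y, l', rfl⟩
  set l := y :: l' with hldef
  have hy : y ∈ l := by simp [hldef]
  have hlen : ∀ x ∈ l, x.length = y.length := fun x hx => (hperm x hx y hy).length_eq
  have hcnt : ∀ x ∈ l, x.count true = y.count true := fun x hx => (hperm x hx y hy).count_eq true
  have hupos : u = A ++ (l.flatten ++ B) := by rw [← hAB, List.append_assoc]
  have hfl := length_flatten' _ l hlen
  refine ⟨A.length, y.length, y.count true, List.length_pos_iff.mpr (hne y hy), ?_, ?_⟩
  · rw [hupos, List.length_append, List.length_append, hfl, hl]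
    omega
  · intro i hi
    have hi2 : i * y.length ≤ l.flatten.length := by
      rw [hfl, hl]
      exact Nat.mul_le_mul_right _ hi
    have h1 : cnt u (A.length + i * y.length) = A.count true + (l.take i).flatten.count true := by
      rw [cnt, hupos, List.take_length_add_append, List.count_append,
        List.take_append_of_le_length hi2, take_flatten _ l hlen i (by omega)]
    have h2 : cnt u A.length = A.count true := by
      rw [cnt, hupos, List.take_append_of_le_length le_rfl, List.take_length]
    have h3 := count_flatten _ (l.take i) (fun x hx => hcnt x (List.mem_of_mem_take hx))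
    rw [h1, h2, h3, List.length_take, Nat.min_eq_left (by omega)]

lemma flatten_blocks (w : List Bool) (s m : ℕ) : ∀ k : ℕ,
    ((List.range k).map fun i => (w.drop (s + i * m)).take m).flatten =
      (w.drop s).take (k * m) := by
  intro k
  induction k with
  | zero => simp
  | succ k ih =>
    rw [List.range_succ, List.map_append, List.flatten_append, ih, Nat.succ_mul, List.take_add,
      List.drop_drop]
    simp

lemma perm_of_count {x y : List Bool} (h1 : x.length = y.length)
    (h2 : x.count true = y.count true) : x.Perm y := by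
  rw [List.perm_iff_count]
  intro b
  cases b
  · have a1 := List.count_not_add_count x true
    have a2 := List.count_not_add_count y true
    simp only [Bool.not_true] at a1 a2
    omega
  · exact h2

/-- from positions to an abelian power -/
lemma power_of_pos {k : ℕ} (hk : 0 < k) {w : List Bool} {s m e : ℕ} (hm : 0 < m)
    (hs : s + k * m ≤ w.length) (he : ∀ i ≤ k, cnt w (s + i * m) = cnt w s + i * e) :
    ∃ v, v <:+: w ∧ IsAbelianPower k v := by
  have hlen : ∀ i < k, ((w.drop (s + i * m)).take m).length = m := by
    intro i hi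
    have : (i + 1) * m ≤ k * m := Nat.mul_le_mul_right _ hi
    rw [Nat.succ_mul] at this
    rw [List.length_take, List.length_drop]
    omega
  have hcnt : ∀ i < k, ((w.drop (s + i * m)).take m).count true = e := by
    intro i hi
    have h1 := he i (by omega)
    have h2 := he (i + 1) (by omega)
    have h3 : s + (i + 1) * m = (s + i * m) + m := by ring
    rw [h3, cnt, List.take_add, List.count_append] at h2
    have h4 : (w.take (s + i * m)).count true = cnt w s + i * e := h1
    rw [h4, Nat.succ_mul] at h2
    omega
  refine ⟨(w.drop s).take (k * m), ?_, ?_, (List.range k).map fun i =>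
    (w.drop (s + i * m)).take m, by simp, flatten_blocks w s m k, ?_, ?_⟩
  · exact (List.take_prefix _ _).isInfix.trans (List.drop_suffix _ _).isInfix
  · intro h0
    have := congrArg List.length h0
    rw [List.length_take, List.length_drop, List.length_nil] at this
    have : 1 * 1 ≤ k * m := Nat.mul_le_mul hk hm
    omega
  · intro x hx h0
    simp only [List.mem_map, List.mem_range] at hx
    obtain ⟨i, hi, rfl⟩ := hx
    have := hlen i hi
    rw [h0] at this
    simp at this
    omega
  · intro x hx y hy
    simp only [List.mem_map, List.mem_range] at hx hy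
    obtain ⟨i, hi, rfl⟩ := hx
    obtain ⟨j, hj, rfl⟩ := hy
    exact perm_of_count (by rw [hlen i hi, hlen j hj]) (by rw [hcnt i hi, hcnt j hj])

theorem h_free : AbelianPowerFreeMap 13 h := by
  intro w hw v hv hp
  obtain ⟨s, m, e, hm, hs, he⟩ := pos_of_power (by norm_num) hv hp
  rw [h_length] at hs
  obtain ⟨s', m', e', hm', hs', he'⟩ := main_step w s m e hm hs he
  obtain ⟨v', hv', hp'⟩ := power_of_pos (by norm_num) hm' hs' he'
  exact hw v' hv' hp'

/-! ### The fixed point -/

/-- the infinite word -/
def x (n : ℕ) : Bool := (Nat.digits 13 n).foldr (fun d c => T c d) false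

lemma x_rec (n : ℕ) : x n = T (x (n / 13)) (n % 13) := by
  rcases Nat.eq_zero_or_pos n with rfl | hn
  · rfl
  · rw [x, Nat.digits_def' (by norm_num) hn, List.foldr_cons]
    rfl

lemma x_add (j : ℕ) {r : ℕ} (hr : r < 13) : x (13 * j + r) = T (x j) r := by
  rw [x_rec]
  have h1 : (13 * j + r) / 13 = j := by omega
  have h2 : (13 * j + r) % 13 = r := by omega
  rw [h1, h2]

lemma iter_length (n : ℕ) : (h^[n] [false]).length = 13 ^ n := by
  induction n with
  | zero => rfl
  | succ n ih => rw [Function.iterate_succ_apply', h_length, ih, pow_succ]; ring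

lemma iter_get (n : ℕ) : ∀ i, i < (h^[n] [false]).length → (h^[n] [false])[i]? = some (x i) := by
  induction n with
  | zero =>
    intro i hi
    have : i = 0 := by simpa using hi
    subst this
    rfl
  | succ n ih =>
    intro i hi
    rw [Function.iterate_succ_apply'] at hi ⊢
    rw [h_length] at hi
    have h1 := ih (i / 13) (by omega)
    have h2 := h_get (h^[n] [false]) (j := i / 13) (r := i % 13) (Nat.mod_lt _ (by norm_num)) h1
    rw [Nat.div_add_mod] at h2
    rw [h2, x_rec i]

theorem fixed : IsFixedPointFromA h x := by
  refine ⟨⟨(img false).tail, by decide, rfl⟩, ?_, iter_get⟩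
  simp only [iter_length]
  exact tendsto_pow_atTop_atTop_of_one_lt (by norm_num)

lemma chk3 : ∀ c : Bool, ∀ r : Fin 12, ¬ (T c r.1 = true ∧ T c (r.1 + 1) = true) := by
  decide +kernel

lemma T_zero (c : Bool) : T c 0 = false := by cases c <;> rfl

lemma nobb (s : ℕ) : ¬ (x s = true ∧ x (s + 1) = true) := by
  rcases Nat.lt_or_ge (s % 13) 12 with h1 | h1
  · have e1 : x s = T (x (s / 13)) (s % 13) := x_rec s
    have e2 : x (s + 1) = T (x (s / 13)) (s % 13 + 1) := by
      rw [x_rec (s + 1)]
      have a1 : (s + 1) / 13 = s / 13 := by omega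
      have a2 : (s + 1) % 13 = s % 13 + 1 := by omega
      rw [a1, a2]
    rw [e1, e2]
    exact chk3 _ ⟨s % 13, h1⟩
  · have e2 : x (s + 1) = false := by
      rw [x_rec (s + 1)]
      have a2 : (s + 1) % 13 = 0 := by omega
      rw [a2, T_zero]
    rw [e2]
    simp

theorem avoids : AvoidsBB x := by
  intro s hs
  have h0 : factor x s 2 = [x (s + 0), x (s + 1)] := rfl
  rw [h0] at hs
  simp only [Nat.add_zero, List.cons.injEq, and_true] at hs
  exact nobb s hs

/-- the `t`-th letter after position `r` in the image of the three-letter word `abc` -/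
def W3 (a b c : Bool) (n : ℕ) : Bool :=
  if n < 13 then T a n else if n < 26 then T b (n - 13) else T c (n - 26)

lemma x_W3 (s t : ℕ) (ht : t ≤ 13) :
    x (s + t) = W3 (x (s / 13)) (x (s / 13 + 1)) (x (s / 13 + 2)) (s % 13 + t) := by
  have hs : s = 13 * (s / 13) + s % 13 := (Nat.div_add_mod _ _).symm
  have hr : s % 13 < 13 := Nat.mod_lt _ (by norm_num)
  generalize s / 13 = j at *
  generalize s % 13 = r at *
  subst hs
  unfold W3
  split_ifs with h1 h2
  · rw [← x_add j h1]; congr 1; ring
  · rw [← x_add (j + 1) (r := r + t - 13) (by omega)]; congr 1; omega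
  · rw [← x_add (j + 2) (r := r + t - 26) (by omega)]; congr 1; omega

lemma chk4 : ∀ r r' : Fin 13, r ≠ r' → ∀ a b c a' b' c' : Bool,
    ∃ t : Fin 12, W3 a b c (r.1 + t.1) ≠ W3 a' b' c' (r'.1 + t.1) := by
  decide +kernel

lemma sync (s s' : ℕ) (hss : ∀ t < 12, x (s + t) = x (s' + t)) : s % 13 = s' % 13 := by
  by_contra hne
  obtain ⟨t, ht⟩ := chk4 ⟨s % 13, Nat.mod_lt _ (by norm_num)⟩ ⟨s' % 13, Nat.mod_lt _ (by norm_num)⟩
    (by simpa using hne) (x (s / 13)) (x (s / 13 + 1)) (x (s / 13 + 2)) (x (s' / 13))
    (x (s' / 13 + 1)) (x (s' / 13 + 2))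
  apply ht
  simp only
  rw [← x_W3 s t.1 (by omega), ← x_W3 s' t.1 (by omega)]
  exact hss t.1 t.2

lemma chk5 : ∀ r : Fin 13, ∀ a b : Bool, ¬ (a = true ∧ b = true) →
    (∃ t : Fin 4, W3 a b false (r.1 + t.1) ≠ W3 a b false (r.1 + t.1 + 1)) ∧
      (∃ t : Fin 8, W3 a b false (r.1 + t.1) ≠ W3 a b false (r.1 + t.1 + 2)) := by
  decide +kernel

lemma x_W3' (s t : ℕ) (ht : s % 13 + t < 26) (c : Bool) :
    x (s + t) = W3 (x (s / 13)) (x (s / 13 + 1)) c (s % 13 + t) := by
  have hs : s = 13 * (s / 13) + s % 13 := (Nat.div_add_mod _ _).symm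
  have hr : s % 13 < 13 := Nat.mod_lt _ (by norm_num)
  generalize s / 13 = j at *
  generalize s % 13 = r at *
  subst hs
  unfold W3
  split_ifs with h1
  · rw [← x_add j h1]; congr 1; ring
  · rw [← x_add (j + 1) (r := r + t - 13) (by omega)]; congr 1; omega

lemma chk6 : ∀ c c' : Bool, T c 3 = T c' 3 → c = c' := by decide

/-- no fifth powers, in terms of positions -/
lemma no_run : ∀ p : ℕ, 0 < p → ∀ s, ¬ ∀ i < 4 * p, x (s + i) = x (s + i + p) := by
  intro p
  induction p using Nat.strong_induction_on with
  | _ p ih =>
    intro hp s hrun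
    have hr : s % 13 < 13 := Nat.mod_lt _ (by norm_num)
    have hbb := nobb (s / 13)
    rcases Nat.lt_or_ge p 3 with h3 | h3
    · obtain ⟨⟨t1, ht1⟩, ⟨t2, ht2⟩⟩ := chk5 ⟨s % 13, hr⟩ _ _ hbb
      simp only at ht1 ht2
      obtain rfl | rfl : p = 1 ∨ p = 2 := by omega
      · apply ht1
        have := hrun t1.1 (by omega)
        rw [Nat.add_assoc, x_W3' s t1.1 (by omega) false,
          x_W3' s (t1.1 + 1) (by omega) false] at this
        rw [Nat.add_assoc]
        exact this
      · apply ht2
        have := hrun t2.1 (by omega)
        rw [Nat.add_assoc, x_W3' s t2.1 (by omega) false,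
          x_W3' s (t2.1 + 2) (by omega) false] at this
        rw [Nat.add_assoc]
        exact this
    · have hsync : s % 13 = (s + p) % 13 := by
        apply sync
        intro t ht
        rw [hrun t (by omega)]
        congr 1
        ring
      obtain ⟨q, rfl⟩ : ∃ q, p = 13 * q := ⟨p / 13, by omega⟩
      have hq : 0 < q := by omega
      rcases Nat.lt_or_ge 3 (s % 13) with h4 | h4
      · -- start one block later
        apply ih q (by omega) hq (s / 13 + 1)
        intro i hi
        apply chk6
        have e1 : x (13 * (s / 13 + 1 + i) + 3) = T (x (s / 13 + 1 + i)) 3 :=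
          x_add _ (by norm_num)
        have e2 : x (13 * (s / 13 + 1 + i + q) + 3) = T (x (s / 13 + 1 + i + q)) 3 :=
          x_add _ (by norm_num)
        rw [← e1, ← e2]
        have := hrun (13 * (s / 13 + 1 + i) + 3 - s) (by omega)
        have a1 : s + (13 * (s / 13 + 1 + i) + 3 - s) = 13 * (s / 13 + 1 + i) + 3 := by omega
        rw [a1] at this
        rw [this]
        congr 1
        ring
      · apply ih q (by omega) hq (s / 13)
        intro i hi
        apply chk6
        have e1 : x (13 * (s / 13 + i) + 3) = T (x (s / 13 + i)) 3 :=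
          x_add _ (by norm_num)
        have e2 : x (13 * (s / 13 + i + q) + 3) = T (x (s / 13 + i + q)) 3 :=
          x_add _ (by norm_num)
        rw [← e1, ← e2]
        have := hrun (13 * (s / 13 + i) + 3 - s) (by omega)
        have a1 : s + (13 * (s / 13 + i) + 3 - s) = 13 * (s / 13 + i) + 3 := by omega
        rw [a1] at this
        rw [this]
        congr 1
        ring

theorem fivefree : FivePowerFree x := by
  intro s u hu hs
  have hp : 0 < u.length := List.length_pos_iff.mpr hu
  apply no_run u.length hp s
  intro i hi
  have hget : ∀ j < 5 * u.length, (factor x s (5 * u.length))[j]? = some (x (s + j)) := by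
    intro j hj
    rw [factor, List.getElem?_map, List.getElem?_range hj]
    rfl
  have h1 := hget i (by omega)
  have h2 := hget (i + u.length) (by omega)
  rw [hs] at h1 h2
  have h3 : (u ++ u ++ u ++ u ++ u)[i]? = (u ++ u ++ u ++ u)[i]? :=
    List.getElem?_append_left (by simp; omega)
  have h4 : (u ++ u ++ u ++ u ++ u)[i + u.length]? = (u ++ u ++ u ++ u)[i]? := by
    have : u ++ u ++ u ++ u ++ u = u ++ (u ++ u ++ u ++ u) := by simp
    rw [this, List.getElem?_append_right (by omega)]
    congr 1
    omega
  rw [h3] at h1
  rw [h4, h1] at h2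
  rw [Nat.add_assoc]
  exact (Option.some.inj h2)

/-- **Yes.**  There are a morphism `h` of the words over `{a, b}`, an integer `k ≥ 2` and an
infinite word `x` such that `h` is abelian `k`-power free and `x` is the fixed point of `h`
starting with `a`, is `5`-power free and has no factor `bb`. -/
theorem result : ∃ h : List Bool → List Bool, IsMorphism h ∧
    (∃ k, 2 ≤ k ∧ AbelianPowerFreeMap k h) ∧
      ∃ x : ℕ → Bool, IsFixedPointFromA h x ∧ FivePowerFree x ∧ AvoidsBB x :=
  ⟨h, fun u v => by simp [h], ⟨13, by norm_num, h_free⟩, x, fixed, fivefree, avoids⟩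

end Pool.Agent.Results.MP_8f8c07_co.UniformThirteen
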